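import Pool.Agent.P85.Main
import Pool.Agent.P85.Cases
import Pool.Agent.P85.Rotate

/-!
# MP_ac4f8b_gt, Q1 (Armstrong's question): one orthogonal plane section is enough

Let `K = {f ≤ 0}` be a compact convex body in three-space with smooth regular boundary, of constant
width, such that every unit speed geodesic of its boundary surface is closed. If some plane meets the
surface and cuts it orthogonally, then `K` is a round ball. This is the case if one geodesic is a plane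
curve, if `K` has a plane of symmetry, or if `K` is a body of revolution.
-/

set_option autoImplicit false
open scoped ContDiff

namespace Pool.Agent.Results.MP_ac4f8b_gt.OnePlane

theorem result :
    ∀ (K : Set (EuclideanSpace ℝ (Fin 3))) (f : EuclideanSpace ℝ (Fin 3) → ℝ),
      ContDiff ℝ ∞ f →
      K = {x | f x ≤ 0} →
      (∀ x, f x = 0 → gradient f x ≠ 0) →
      Convex ℝ K → IsCompact K → (interior K).Nonempty →
      (∃ w : ℝ, 0 < w ∧ ∀ u : EuclideanSpace ℝ (Fin 3), ‖u‖ = 1 →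
        sSup ((fun x => inner ℝ x u) '' K) + sSup ((fun x => inner ℝ x (-u)) '' K) = w) →
      (∀ γ : ℝ → EuclideanSpace ℝ (Fin 3), ContDiff ℝ ∞ γ →
        (∀ t, f (γ t) = 0) →
        (∀ t, ‖deriv γ t‖ = 1) →
        (∀ t, ∃ c : ℝ, iteratedDeriv 2 γ t = c • gradient f (γ t)) →
        ∃ T : ℝ, 0 < T ∧ ∀ t, γ (t + T) = γ t) →
      -- a plane meets the surface and cuts it orthogonally
      ((∃ (v : EuclideanSpace ℝ (Fin 3)) (c : ℝ), ‖v‖ = 1 ∧ (∃ x, f x = 0 ∧ inner ℝ x v = c) ∧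
          ∀ x, f x = 0 → inner ℝ x v = c → inner ℝ (gradient f x) v = 0) ∨
      -- a geodesic is a plane curve
        (∃ (γ : ℝ → EuclideanSpace ℝ (Fin 3)) (v : EuclideanSpace ℝ (Fin 3)) (c : ℝ),
          ContDiff ℝ ∞ γ ∧ (∀ t, f (γ t) = 0) ∧ (∀ t, ‖deriv γ t‖ = 1) ∧
          (∀ t, ∃ l : ℝ, iteratedDeriv 2 γ t = l • gradient f (γ t)) ∧ v ≠ 0 ∧
          ∀ t, inner ℝ (γ t) v = c) ∨
      -- a plane of symmetry
        (∃ (v : EuclideanSpace ℝ (Fin 3)) (c : ℝ), ‖v‖ = 1 ∧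
          ∀ x ∈ K, x - (2 * ((inner ℝ x v : ℝ) - c)) • v ∈ K) ∨
      -- a body of revolution
        (∃ c v : EuclideanSpace ℝ (Fin 3), ‖v‖ = 1 ∧
          ∀ x ∈ K, ∀ y : EuclideanSpace ℝ (Fin 3),
            inner ℝ (y - c) v = inner ℝ (x - c) v → ‖y - c‖ = ‖x - c‖ → y ∈ K)) →
      ∃ (c : EuclideanSpace ℝ (Fin 3)) (r : ℝ), K = Metric.closedBall c r := by
  intro K f h1 h2 h3 h4 h5 h6 h7 h8 h9
  obtain ⟨w, hw, hwid⟩ := h7
  have h : Pool.Agent.P85.Hyp K f w := ⟨h1, h2, h3, h4, h5, h6, hw, hwid⟩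
  have ho : ∃ (v : EuclideanSpace ℝ (Fin 3)) (c : ℝ), ‖v‖ = 1 ∧
      Pool.Agent.P85.OrthPlane f v c := by
    rcases h9 with ⟨v, c, hv, hx, hy⟩ | h9 | h9 | h9
    · exact ⟨v, c, hv, hx, hy⟩
    · exact Pool.Agent.P85.exists_orth_of_geodesic h h8 h9
    · exact Pool.Agent.P85.exists_orth_of_symm h h9
    · exact Pool.Agent.P85.orth_of_rev h h9
  obtain ⟨v, c, hv, hvc⟩ := ho
  exact Pool.Agent.P85.wlog_nu (fun K f w c h h' h'' => Pool.Agent.P85.main_nu h h' h'') h h8 hv hvc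

end Pool.Agent.Results.MP_ac4f8b_gt.OnePlane
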